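import Mathlib

/-! Definition for MP_1fec7a_co: clique partitioned graphs. -/

namespace Pool.Agent.P.MP_1fec7a_co

/-- A simple graph is clique partitioned if any two of its maximal cliques have at most one common
vertex. -/
def CliquePartitioned {V : Type} (G : SimpleGraph V) : Prop :=
  ∀ s t : Set V, Maximal G.IsClique s → Maximal G.IsClique t → s ≠ t → (s ∩ t).Subsingleton

end Pool.Agent.P.MP_1fec7a_co
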