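import Mathlib

/-!
Definitions for MP_1fec7a_co: orientable genus of a finite graph (through rotation systems),
incidence graph and adjacency multigraph of a hypergraph, reduced genus, Heawood function.
-/

namespace Pool.Agent.P.MP_1fec7a_co

/-- Reversal of darts (oriented edges), as a permutation of the darts. -/
def dartReverse {W : Type} (I : SimpleGraph W) : Equiv.Perm I.Dart :=
  Function.Involutive.toPerm SimpleGraph.Dart.symm SimpleGraph.Dart.symm_involutive

/-- A rotation system of `I`: a permutation of the darts whose cycles are exactly the sets of
darts that leave a common vertex (a cyclic order of the edges at every vertex). -/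
def IsRotationSystem {W : Type} (I : SimpleGraph W) (σ : Equiv.Perm I.Dart) : Prop :=
  ∀ d d' : I.Dart, σ.SameCycle d d' ↔ d.fst = d'.fst

/-- The number of faces of the orientable cellular embedding given by the rotation system `σ`
(each component on its own surface): the cycles of the face-tracing permutation, and one face for
each isolated vertex. -/
noncomputable def faceCount {W : Type} (I : SimpleGraph W) (σ : Equiv.Perm I.Dart) : ℕ :=
  Nat.card (Quotient (Equiv.Perm.SameCycle.setoid (σ * dartReverse I))) +
    Nat.card {w : W // ∀ x, ¬ I.Adj w x}

/-- The orientable genus of a finite graph with `c` components: the least `g` such that some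
rotation system has Euler characteristic `V - E + F ≥ 2 c - 2 g`. -/
noncomputable def genus {W : Type} (I : SimpleGraph W) : ℕ :=
  sInf {g : ℕ | ∃ σ : Equiv.Perm I.Dart, IsRotationSystem I σ ∧
    2 * Nat.card I.ConnectedComponent + Nat.card I.edgeSet ≤ Nat.card W + faceCount I σ + 2 * g}

/-- The incidence graph of the hypergraph on `V` whose edges are the sets `E i`:
the vertex `v` is joined to the edge `i` exactly when `v ∈ E i`. -/
def incidenceGraph {V ι : Type} (E : ι → Set V) : SimpleGraph (V ⊕ ι) :=
  SimpleGraph.fromRel (fun a b => ∃ (v : V) (i : ι), a = Sum.inl v ∧ b = Sum.inr i ∧ v ∈ E i)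

open Classical in
/-- The adjacency multigraph of the hypergraph `E` is the simple graph `G`: for `u ≠ v` the number
of hyperedges containing both is `1` if `u v` is an edge of `G` and `0` otherwise. -/
def HasAdjacencyGraph {V ι : Type} (E : ι → Set V) (G : SimpleGraph V) : Prop :=
  ∀ u v : V, u ≠ v → Nat.card {i : ι // u ∈ E i ∧ v ∈ E i} = if G.Adj u v then 1 else 0

/-- The reduced genus of a finite simple graph `G`: the least genus of (the incidence graph of) a
finite hypergraph whose adjacency multigraph is `G`. -/
noncomputable def reducedGenus {V : Type} (G : SimpleGraph V) : ℕ :=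
  sInf {g : ℕ | ∃ (ι : Type) (_ : Finite ι) (E : ι → Set V),
    HasAdjacencyGraph E G ∧ genus (incidenceGraph E) = g}

/-- Heawood's function `H(g) = (7 + √(1 + 48 g)) / 2`. -/
noncomputable def heawood (g : ℕ) : ℝ := (7 + Real.sqrt (1 + 48 * (g : ℝ))) / 2

end Pool.Agent.P.MP_1fec7a_co
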