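import Pool.Agent.P.MP_1fec7a_co.Defs

namespace Pool.Agent.P.MP_1fec7a_co

open Equiv

/-- A permutation whose cycles are the fibres of a map from a finite type. -/
theorem exists_perm_fibres {D W : Type} [Finite D] (f : D → W) :
    ∃ σ : Perm D, ∀ d d' : D, σ.SameCycle d d' ↔ f d = f d' := by
  classical
  have h : ∀ w : W, ∃ τ : Perm {d // f d = w}, τ.IsCycleOn Set.univ := fun w =>
    let ⟨τ, hτ, _⟩ := (Set.to_countable (Set.univ : Set {d // f d = w})).exists_cycleOn
    ⟨τ, hτ⟩
  choose τ hτ using h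
  let e := Equiv.sigmaFiberEquiv f
  let ρ : Perm (Σ w, {d // f d = w}) := Perm.sigmaCongrRight τ
  have hρ : ∀ (n : ℤ) (x : Σ w, {d // f d = w}), (ρ ^ n) x = ⟨x.1, ((τ x.1) ^ n) x.2⟩ := by
    intro n x
    have : ρ ^ n = Perm.sigmaCongrRight (fun w => (τ w) ^ n) := by
      have h1 : ρ = Perm.sigmaCongrRightHom (fun w => {d // f d = w}) τ := rfl
      rw [h1, ← map_zpow]
      rfl
    rw [this]
    rfl
  have key : ∀ x y : Σ w, {d // f d = w}, ρ.SameCycle x y ↔ x.1 = y.1 := by
    rintro ⟨w, a⟩ ⟨w', b⟩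
    constructor
    · rintro ⟨n, hn⟩
      rw [hρ] at hn
      have h2 := congrArg Sigma.fst hn
      exact h2
    · intro h
      dsimp only at h
      subst h
      obtain ⟨n, hn⟩ := (hτ w).2 (Set.mem_univ a) (Set.mem_univ b)
      exact ⟨n, by rw [hρ]; dsimp only; rw [hn]⟩
  refine ⟨e.permCongr ρ, fun d d' => ?_⟩
  have hz : ∀ (n : ℤ) (x : D), ((e.permCongr ρ) ^ n) x = e ((ρ ^ n) (e.symm x)) := by
    intro n x
    have : (e.permCongr ρ) ^ n = e.permCongr (ρ ^ n) := by
      have h1 : ∀ p : Perm (Σ w, {d // f d = w}), e.permCongr p = e.permCongrHom p := fun _ => rfl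
      rw [h1, h1, map_zpow]
    rw [this]
    rfl
  have h1 : (e.permCongr ρ).SameCycle d d' ↔ ρ.SameCycle (e.symm d) (e.symm d') := by
    constructor
    · rintro ⟨n, hn⟩
      refine ⟨n, ?_⟩
      rw [hz] at hn
      rw [← hn, Equiv.symm_apply_apply]
    · rintro ⟨n, hn⟩
      refine ⟨n, ?_⟩
      rw [hz, hn, Equiv.apply_symm_apply]
  rw [h1, key]
  rfl

theorem genus_le {W : Type} [Finite W] (I : SimpleGraph W) :
    genus I ≤ Nat.card W + Nat.card I.edgeSet := by
  classical
  have : Fintype W := Fintype.ofFinite W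
  have : Finite I.Dart := inferInstance
  obtain ⟨σ, hσ⟩ := exists_perm_fibres (fun d : I.Dart => d.fst)
  apply Nat.sInf_le
  refine ⟨σ, hσ, ?_⟩
  have hc : Nat.card I.ConnectedComponent ≤ Nat.card W :=
    Nat.card_le_card_of_surjective I.connectedComponentMk (fun c => by
      obtain ⟨v, hv⟩ := c.exists_rep
      exact ⟨v, hv⟩)
  omega

theorem card_edge_incidence {V ι : Type} [Finite V] [Finite ι] (E : ι → Set V) :
    Nat.card (incidenceGraph E).edgeSet ≤ Nat.card (Σ i : ι, E i) := by
  classical
  let φ : (Σ i : ι, E i) → (incidenceGraph E).edgeSet := fun p =>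
    ⟨s(Sum.inl p.2.1, Sum.inr p.1), by
      simp only [incidenceGraph, SimpleGraph.mem_edgeSet, SimpleGraph.fromRel_adj]
      exact ⟨by simp, Or.inl ⟨p.2.1, p.1, rfl, rfl, p.2.2⟩⟩⟩
  apply Nat.card_le_card_of_surjective φ
  rintro ⟨e, he⟩
  induction e using Sym2.ind with
  | h a b =>
    simp only [incidenceGraph, SimpleGraph.mem_edgeSet, SimpleGraph.fromRel_adj] at he
    obtain ⟨_, h | h⟩ := he
    · obtain ⟨v, i, rfl, rfl, hv⟩ := h
      exact ⟨⟨i, v, hv⟩, rfl⟩
    · obtain ⟨v, i, rfl, rfl, hv⟩ := h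
      exact ⟨⟨i, v, hv⟩, Subtype.ext Sym2.eq_swap⟩

/-- If `K` is a clique of `G`, the reduced genus is linear in the number of vertices, with a
constant that depends only on the number of vertices outside `K`. -/
theorem reducedGenus_le {V : Type} [Finite V] (G : SimpleGraph V) (K : Set V) (hK : G.IsClique K) :
    reducedGenus G ≤ 3 * (Nat.card {v // v ∉ K} * Nat.card V) + 2 * Nat.card V + 1 := by
  classical
  let J : Type := {e : Sym2 V // e ∈ G.edgeSet ∧ ∃ v ∈ e, v ∉ K}
  let E : Option J → Set V := fun i => match i with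
    | none => K
    | some e => {v | v ∈ e.1}
  have hadj : HasAdjacencyGraph E G := by
    intro u v huv
    split_ifs with h
    · rw [Nat.card_eq_one_iff_exists]
      by_cases hb : u ∈ K ∧ v ∈ K
      · refine ⟨⟨none, hb⟩, ?_⟩
        rintro ⟨_ | e, he⟩
        · rfl
        · exfalso
          have h1 : e.1 = s(u, v) := (Sym2.mem_and_mem_iff huv).1 he
          obtain ⟨_, w, hw, hwK⟩ := e.2
          rw [h1, Sym2.mem_iff] at hw
          rcases hw with rfl | rfl
          · exact hwK hb.1
          · exact hwK hb.2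
      · have hex : ∃ w ∈ s(u, v), w ∉ K := by
          by_cases hu : u ∈ K
          · exact ⟨v, by simp, fun hv => hb ⟨hu, hv⟩⟩
          · exact ⟨u, by simp, hu⟩
        refine ⟨⟨some ⟨s(u, v), h, hex⟩, by simp [E]⟩, ?_⟩
        rintro ⟨_ | e, he⟩
        · exact absurd he hb
        · have h1 : e.1 = s(u, v) := (Sym2.mem_and_mem_iff huv).1 he
          apply Subtype.ext
          dsimp only
          congr 1
          exact Subtype.ext h1
    · rw [Nat.card_eq_zero]
      left
      constructor
      rintro ⟨_ | e, he⟩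
      · exact h (hK he.1 he.2 huv)
      · have h1 : e.1 = s(u, v) := (Sym2.mem_and_mem_iff huv).1 he
        have h2 := e.2.1
        rw [h1] at h2
        exact h h2
  have hJ : Nat.card J ≤ Nat.card {v // v ∉ K} * Nat.card V := by
    rw [← Nat.card_prod]
    have hex : ∀ e : J, ∃ p : {v // v ∉ K} × V, e.1 = s(p.1.1, p.2) := by
      rintro ⟨e, he, v, hv, hvK⟩
      exact ⟨(⟨v, hvK⟩, Sym2.Mem.other hv), (Sym2.other_spec hv).symm⟩
    choose ψ hψ using hex
    apply Nat.card_le_card_of_injective ψ
    intro a b hab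
    apply Subtype.ext
    rw [hψ a, hψ b, hab]
  have hE : Nat.card (Σ i : Option J, E i) ≤ Nat.card V + 2 * Nat.card J := by
    have : Fintype J := Fintype.ofFinite J
    rw [Nat.card_sigma, Fintype.sum_option]
    apply add_le_add
    · exact Nat.card_le_card_of_injective Subtype.val Subtype.val_injective
    · calc ∑ e : J, Nat.card (E (some e)) ≤ ∑ _e : J, 2 := by
            apply Finset.sum_le_sum
            rintro ⟨e, he⟩ _
            induction e using Sym2.ind with
            | h a b =>
              have : E (some ⟨s(a, b), he⟩) = {a, b} := by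
                ext x; simp [E]
              rw [this, Nat.card_coe_set_eq]
              exact (Set.ncard_insert_le a {b}).trans (by simp)
        _ = 2 * Nat.card J := by simp [mul_comm]
  have h1 : reducedGenus G ≤ genus (incidenceGraph E) :=
    Nat.sInf_le ⟨Option J, inferInstance, E, hadj, rfl⟩
  have h2 := genus_le (incidenceGraph E)
  have h3 := card_edge_incidence E
  have h4 : Nat.card (V ⊕ Option J) = Nat.card V + (Nat.card J + 1) := by
    rw [Nat.card_sum, Finite.card_option]
  omega

end Pool.Agent.P.MP_1fec7a_co
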