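import Pool.Agent.P.MP_1fec7a_co.GenusBound

namespace Pool.Agent.P.MP_1fec7a_co

/-- Non-adjacency inside a pentagon. -/
def pent (a b : Fin 5) : Prop := b = a + 1 ∨ a = b + 1

instance : DecidableRel pent := fun a b => inferInstanceAs (Decidable (b = a + 1 ∨ a = b + 1))

/-- The join of `K_m` with `t` pentagons. -/
def joinG (m t : ℕ) : SimpleGraph (Fin m ⊕ (Fin t × Fin 5)) where
  Adj u v := u ≠ v ∧ ¬ ∃ i a b, u = Sum.inr (i, a) ∧ v = Sum.inr (i, b) ∧ pent a b
  symm := ⟨by
    rintro u v ⟨h1, h2⟩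
    refine ⟨h1.symm, ?_⟩
    rintro ⟨i, a, b, rfl, rfl, h⟩
    exact h2 ⟨i, b, a, rfl, rfl, h.symm⟩⟩
  loopless := ⟨fun u h => h.1 rfl⟩

theorem pent_indep (S : Finset (Fin 5)) (h : ∀ a ∈ S, ∀ b ∈ S, a ≠ b → ¬ pent a b) :
    S.card ≤ 2 := by
  revert S
  decide

theorem pent_clique (S : Finset (Fin 5)) (h : ∀ a ∈ S, ∀ b ∈ S, a ≠ b → pent a b) :
    S.card ≤ 2 := by
  revert S
  decide

theorem clique_card_le (m t : ℕ) (S : Finset (Fin m ⊕ (Fin t × Fin 5)))
    (hS : (joinG m t).IsClique S) : S.card ≤ m + 2 * t := by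
  classical
  rw [← Finset.card_toLeft_add_card_toRight]
  apply add_le_add
  · simpa using Finset.card_le_univ S.toLeft
  · rw [Finset.card_eq_sum_card_fiberwise (f := Prod.fst) (t := Finset.univ) (by simp)]
    calc ∑ i : Fin t, (S.toRight.filter (fun p => p.1 = i)).card ≤ ∑ _i : Fin t, 2 := by
          apply Finset.sum_le_sum
          intro i _
          have h1 : (S.toRight.filter (fun p => p.1 = i)).card =
              ((S.toRight.filter (fun p => p.1 = i)).image Prod.snd).card := by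
            symm
            apply Finset.card_image_of_injOn
            rintro ⟨i1, a⟩ h1 ⟨i2, b⟩ h2 h
            simp only [Finset.coe_filter, Set.mem_setOf_eq] at h1 h2 h
            rw [h1.2, h2.2, h]
          rw [h1]
          apply pent_indep
          intro a ha b hb hab hp
          simp only [Finset.mem_image, Finset.mem_filter, Finset.mem_toRight] at ha hb
          obtain ⟨⟨i1, a'⟩, ⟨ha1, rfl⟩, rfl⟩ := ha
          obtain ⟨⟨i2, b'⟩, ⟨hb1, hi⟩, rfl⟩ := hb
          dsimp only at hi hab hp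
          subst hi
          have := hS ha1 hb1 (by simpa using hab)
          exact this.2 ⟨i2, a', b', rfl, rfl, hp⟩
      _ = 2 * t := by simp [mul_comm]

theorem cliqueNum_le (m t : ℕ) : (joinG m t).cliqueNum ≤ m + 2 * t := by
  classical
  obtain ⟨S, hS⟩ := (joinG m t).exists_isNClique_cliqueNum
  rw [← hS.card_eq]
  exact clique_card_le m t S hS.isClique

/-- Weight `2` on the vertices of the clique, `1` on the vertices of the pentagons. -/
def wt {m t : ℕ} : Fin m ⊕ (Fin t × Fin 5) → ℕ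
  | Sum.inl _ => 2
  | Sum.inr _ => 1

theorem indep_wt_le (m t : ℕ) (S : Finset (Fin m ⊕ (Fin t × Fin 5)))
    (hS : ∀ u ∈ S, ∀ v ∈ S, ¬ (joinG m t).Adj u v) : ∑ v ∈ S, wt v ≤ 2 := by
  classical
  have hS' : ∀ u ∈ S, ∀ v ∈ S, u ≠ v →
      ∃ i a b, u = Sum.inr (i, a) ∧ v = Sum.inr (i, b) ∧ pent a b := by
    intro u hu v hv huv
    by_contra h
    exact hS u hu v hv ⟨huv, h⟩
  by_cases h : ∃ x, Sum.inl x ∈ S
  · obtain ⟨x, hx⟩ := h
    have : S = {Sum.inl x} := by
      apply Finset.eq_singleton_iff_unique_mem.2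
      refine ⟨hx, fun v hv => ?_⟩
      by_contra hne
      obtain ⟨i, a, b, _, h2, _⟩ := hS' v hv _ hx hne
      cases h2
    rw [this]
    simp [wt]
  · have h1 : ∑ v ∈ S, wt v = S.card := by
      rw [Finset.card_eq_sum_ones]
      apply Finset.sum_congr rfl
      rintro (x | x) hx
      · exact absurd ⟨x, hx⟩ h
      · rfl
    rw [h1]
    let φ : Fin m ⊕ (Fin t × Fin 5) → Fin 5 := fun v => match v with
      | Sum.inl _ => 0
      | Sum.inr p => p.2
    have hp : ∀ u ∈ S, ∀ v ∈ S, u ≠ v → pent (φ u) (φ v) := by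
      intro u hu v hv huv
      obtain ⟨i, a, b, rfl, rfl, h3⟩ := hS' u hu v hv huv
      exact h3
    have hirr : ∀ a, ¬ pent a a := by decide
    have h2 : (S.image φ).card = S.card := by
      apply Finset.card_image_of_injOn
      intro u hu v hv huv
      by_contra hne
      have := hp u hu v hv hne
      rw [huv] at this
      exact hirr _ this
    rw [← h2]
    apply pent_clique
    intro a ha b hb hab
    simp only [Finset.mem_image] at ha hb
    obtain ⟨u, hu, rfl⟩ := ha
    obtain ⟨v, hv, rfl⟩ := hb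
    exact hp u hu v hv (fun h => hab (by rw [h]))

theorem colorable_ge (m t k : ℕ) (h : (joinG m t).Colorable k) : 2 * m + 5 * t ≤ 2 * k := by
  classical
  obtain ⟨C⟩ := h
  have h1 : ∑ v : Fin m ⊕ (Fin t × Fin 5), wt v = 2 * m + 5 * t := by
    rw [Fintype.sum_sum_type]
    simp [wt, mul_comm]
  rw [← h1, ← Finset.sum_fiberwise (s := Finset.univ) (g := C)]
  calc ∑ j : Fin k, ∑ v ∈ Finset.univ.filter (fun v => C v = j), wt v ≤ ∑ _j : Fin k, 2 := by
        apply Finset.sum_le_sum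
        intro j _
        apply indep_wt_le
        intro u hu v hv hadj
        simp only [Finset.mem_filter] at hu hv
        exact C.valid hadj (hu.2.trans hv.2.symm)
    _ = 2 * k := by simp [mul_comm]

theorem reducedGenus_joinG_le (m t : ℕ) :
    reducedGenus (joinG m t) ≤ 3 * (5 * t * (m + 5 * t)) + 2 * (m + 5 * t) + 1 := by
  have hK : (joinG m t).IsClique (Set.range Sum.inl) := by
    rintro _ ⟨x, rfl⟩ _ ⟨y, rfl⟩ hxy
    refine ⟨hxy, ?_⟩
    rintro ⟨i, a, b, h, _⟩
    cases h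
  have h1 := reducedGenus_le (joinG m t) _ hK
  have h2 : Nat.card (Fin m ⊕ (Fin t × Fin 5)) = m + 5 * t := by simp [mul_comm]
  have h3 : Nat.card {v : Fin m ⊕ (Fin t × Fin 5) // v ∉ Set.range Sum.inl} ≤ 5 * t := by
    have : Nat.card (Fin t × Fin 5) = 5 * t := by simp [mul_comm]
    rw [← this]
    apply Nat.card_le_card_of_surjective
      (fun p : Fin t × Fin 5 => (⟨Sum.inr p, by simp⟩ : {v // v ∉ Set.range Sum.inl}))
    rintro ⟨x | p, hx⟩
    · exact absurd ⟨x, rfl⟩ hx
    · exact ⟨p, rfl⟩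
  rw [h2] at h1
  have h4 := Nat.mul_le_mul_right (m + 5 * t) h3
  omega

theorem main (c : ℕ) : ∃ (V : Type) (_ : Fintype V) (G : SimpleGraph V) (g k : ℕ),
    reducedGenus G = g ∧ G.chromaticNumber = (k : ℕ∞) ∧
    max (heawood g) ((G.cliqueNum : ℝ) + 1) + (c : ℝ) < (k : ℝ) := by
  classical
  obtain ⟨t, ht⟩ : ∃ t, t = 2 * c + 4 := ⟨_, rfl⟩
  obtain ⟨m, hm⟩ : ∃ m, m = 2000 * t := ⟨_, rfl⟩
  have hne : (joinG m t).chromaticNumber ≠ ⊤ :=
    ((joinG m t).colorable_of_fintype.chromaticNumber_le.trans_lt (ENat.coe_lt_top _)).ne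
  obtain ⟨k, hk⟩ := ENat.ne_top_iff_exists.1 hne
  refine ⟨_, inferInstance, joinG m t, _, k, rfl, hk.symm, ?_⟩
  have hcol : (joinG m t).Colorable k := SimpleGraph.chromaticNumber_le_iff_colorable.1 hk.symm.le
  have h1 := colorable_ge m t k hcol
  have h2 := cliqueNum_le m t
  have h3 := reducedGenus_joinG_le m t
  have h4 : 1 + 48 * reducedGenus (joinG m t) ≤ m * m := by
    have : 4 ≤ t := by omega
    subst hm
    nlinarith
  have h5 : Real.sqrt (1 + 48 * (reducedGenus (joinG m t) : ℝ)) ≤ m := by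
    apply Real.sqrt_le_iff.2
    refine ⟨by positivity, ?_⟩
    rw [sq]
    exact_mod_cast h4
  have h6 : 7 + m + 2 * c < 2 * k := by omega
  have h7 : (joinG m t).cliqueNum + 1 + c < k := by omega
  have h6' : (7 : ℝ) + m + 2 * c < 2 * k := by exact_mod_cast h6
  have h7' : ((joinG m t).cliqueNum : ℝ) + 1 + c < k := by exact_mod_cast h7
  rw [← max_add_add_right, max_lt_iff]
  refine ⟨?_, h7'⟩
  unfold heawood
  linarith

end Pool.Agent.P.MP_1fec7a_co
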